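import Pool.Agent.H91.SV.Targets

/-!
# MP_c62aed_lc: the error term of the matrix inequality (row XXB)
-/

set_option autoImplicit false

namespace Pool.Agent.H56.SV

open Finset Matrix Pool.Agent.H91.SV

theorem kk_eq (p q s e u σ : ℝ) (hp : 0 < p) (hq : 0 < q) (he : 1 < e) (hes : e * s = 1)
    (hu : u = (e - 1) * q / p) (hσ : σ = u ^ (s / 2)) :
    H43.PS.KK p q e σ = 2 * (p + 1) ^ (e - 1) := by
  have hu0 : 0 < u := by
    rw [hu]; exact div_pos (mul_pos (by linarith) hq) hp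
  have h1 : σ ^ (2 * e) = u := by
    rw [hσ, ← Real.rpow_mul hu0.le]
    have : s / 2 * (2 * e) = 1 := by linear_combination hes
    rw [this, Real.rpow_one]
  have h2 : u * (p / ((e - 1) * q)) = 1 := by
    rw [hu]
    have : e - 1 ≠ 0 := by intro h; linarith
    field_simp
  unfold H43.PS.KK
  rw [h1, h2]
  ring

theorem sig_pow (s u σ : ℝ) (h : ℕ) (hu0 : 0 < u) (hσ : σ = u ^ (s / 2)) :
    (σ⁻¹) ^ (2 * (h + 1)) = (u⁻¹) ^ (((h : ℝ) + 1) * s) := by
  have hui : 0 < u⁻¹ := inv_pos.2 hu0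
  rw [hσ, ← Real.inv_rpow hu0.le, ← Real.rpow_natCast, ← Real.rpow_mul hui.le]
  congr 1
  push_cast
  ring

theorem last_fac (p q s e e0 u : ℝ) (h : ℕ) (hp : 0 < p) (hq : 0 < q) (h0 : 0 < e0)
    (h1 : e0 < 1) (hs : s = 1 - e0) (he : 1 < e) (hes : e * s = 1)
    (hu : u = (e - 1) * q / p) :
    (u⁻¹) ^ (((h : ℝ) + 1) * s) ≤ (1 / e0) ^ (h + 1) * (p / q) ^ (((h : ℝ) + 1) * s) := by
  have hs0 : 0 < s := by rw [hs]; linarith
  have hx : 0 ≤ ((h : ℝ) + 1) * s := by positivity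
  have he1 : 0 < e - 1 := by linarith
  have hfac : (e - 1) * s = e0 := by linear_combination hes - hs
  have hui : u⁻¹ = (1 / (e - 1)) * (p / q) := by
    rw [hu]
    field_simp
  have hle : 1 / (e - 1) ≤ 1 / e0 := by
    apply one_div_le_one_div_of_le h0
    rw [← hfac]
    have : s ≤ 1 := by rw [hs]; linarith
    nlinarith
  rw [hui, Real.mul_rpow (by positivity) (by positivity)]
  refine mul_le_mul_of_nonneg_right ?_ (by positivity)
  calc (1 / (e - 1)) ^ (((h : ℝ) + 1) * s) ≤ (1 / e0) ^ (((h : ℝ) + 1) * s) :=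
        Real.rpow_le_rpow (by positivity) hle hx
    _ ≤ (1 / e0) ^ ((h : ℝ) + 1) := by
        apply Real.rpow_le_rpow_of_exponent_le
        · rw [le_div_iff₀ h0]; linarith
        · have : s ≤ 1 := by rw [hs]; linarith
          nlinarith [Nat.cast_nonneg (α := ℝ) h]
    _ = (1 / e0) ^ (h + 1) := by
        rw [← Real.rpow_natCast]; push_cast; rfl

theorem al_fac (al θ e0 s : ℝ) (ha : 0 ≤ al) (ht : 0 < θ) (h0 : 0 < e0) (h1 : e0 < 1)
    (hs : s = 1 - e0) : al ^ s ≤ (al + θ) * (1 / θ) ^ e0 := by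
  have hat : 0 < al + θ := by linarith
  have hs0 : 0 ≤ s := by rw [hs]; linarith
  calc al ^ s ≤ (al + θ) ^ s := Real.rpow_le_rpow ha (by linarith) hs0
    _ = (al + θ) * (1 / (al + θ)) ^ e0 := by
        rw [hs, Real.rpow_sub hat, Real.rpow_one, one_div, Real.inv_rpow hat.le]
        rfl
    _ ≤ (al + θ) * (1 / θ) ^ e0 := by
        refine mul_le_mul_of_nonneg_left ?_ hat.le
        refine Real.rpow_le_rpow (by positivity) ?_ h0.le
        exact one_div_le_one_div_of_le ht (by linarith)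

/-- The row XXB. -/
theorem pf_XXB : S_XXB := by
  intro p q N h e0 W θ hp hq h0 h1 hpq hW hθ
  have hp' : (0 : ℝ) < p := by exact_mod_cast hp
  have hq' : (0 : ℝ) < q := by exact_mod_cast hq
  obtain ⟨s, hs⟩ : ∃ s : ℝ, s = 1 - e0 := ⟨_, rfl⟩
  have hs0 : 0 < s := by rw [hs]; linarith
  obtain ⟨e, he⟩ : ∃ e : ℝ, e = 1 / s := ⟨_, rfl⟩
  have hes : e * s = 1 := by rw [he]; field_simp
  have he1 : 1 < e := by
    rw [he, lt_div_iff₀ hs0]; rw [hs]; linarith
  have he2 : e < 3 / 2 := by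
    rw [he, div_lt_iff₀ hs0]; rw [hs]; linarith
  have hfac : (e - 1) * s = e0 := by linear_combination hes - hs
  have hes' : 1 / e = s := by rw [he]; simp
  obtain ⟨u, hu⟩ : ∃ u : ℝ, u = (e - 1) * q / p := ⟨_, rfl⟩
  have hu1 : 1 ≤ u := by
    rw [hu, le_div_iff₀ hp', one_mul]
    have : e0 ≤ e - 1 := by
      rw [← hfac]
      have : s ≤ 1 := by rw [hs]; linarith
      nlinarith
    exact hpq.trans (mul_le_mul_of_nonneg_right this hq'.le)
  have hu0 : 0 < u := by linarith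
  obtain ⟨σ, hσ⟩ : ∃ σ : ℝ, σ = u ^ (s / 2) := ⟨_, rfl⟩
  refine ⟨e, σ, he1, he2, ?_, ?_⟩
  · rw [hσ]; exact Real.one_le_rpow hu1 (by linarith)
  intro r m al hr hrW hm hal
  have hkk := kk_eq p q s e u σ hp' hq' he1 hes hu hσ
  have hsig := sig_pow s u σ h hu0 hσ
  have hlast := last_fac p q s e e0 u h hp' hq' h0 (by linarith) hs he1 hes hu
  have hala := al_fac al θ e0 s hal hθ h0 (by linarith) hs
  have hp1 : (0 : ℝ) < p + 1 := by linarith
  -- the factor with the Schatten norm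
  have hA : (H43.PS.KK p q e σ ^ N * (al * r ^ e)) ^ (1 / e) =
      2 ^ ((N : ℝ) * s) * ((p : ℝ) + 1) ^ ((N : ℝ) * e0) * al ^ s * r := by
    rw [hkk, hes', Real.mul_rpow (by positivity) (by positivity),
      Real.mul_rpow hal (by positivity), mul_pow, Real.mul_rpow (by positivity) (by positivity),
      ← Real.rpow_natCast, ← Real.rpow_natCast, ← Real.rpow_mul (by positivity),
      ← Real.rpow_mul (by positivity), ← Real.rpow_mul (by positivity), ← Real.rpow_mul hr, hes,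
      Real.rpow_one]
    have : (e - 1) * ((N : ℝ) * s) = N * e0 := by linear_combination (N : ℝ) * hfac
    rw [this]
    ring
  have hB : (r * ((p : ℝ) + 1) ^ N) ^ (1 - 1 / e) = r ^ e0 * ((p : ℝ) + 1) ^ ((N : ℝ) * e0) := by
    have : 1 - 1 / e = e0 := by rw [hes', hs]; ring
    rw [this, Real.mul_rpow hr (by positivity), ← Real.rpow_natCast, ← Real.rpow_mul (by positivity)]
  have hC : ((p : ℝ) + 1) ^ ((N : ℝ) * e0) * ((p : ℝ) + 1) ^ ((N : ℝ) * e0) =
      ((p : ℝ) + 1) ^ (2 * (N : ℝ) * e0) := by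
    rw [← Real.rpow_add hp1]
    congr 1; ring
  have hD : (2 : ℝ) ^ ((N : ℝ) * s) ≤ 2 ^ N := by
    rw [← Real.rpow_natCast]
    apply Real.rpow_le_rpow_of_exponent_le (by norm_num)
    have : s ≤ 1 := by rw [hs]; linarith
    nlinarith [Nat.cast_nonneg (α := ℝ) N]
  have hE : r ^ e0 ≤ W ^ e0 := Real.rpow_le_rpow hr hrW h0.le
  have hF : (W / θ) ^ e0 = W ^ e0 * (1 / θ) ^ e0 := by
    rw [← Real.mul_rpow hW.le (by positivity)]
    congr 1; ring
  have hXX : H43.PS.XX p q e σ r (2 * m) (al * r ^ e) N h =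
      (2 * 2 ^ N * ((p : ℝ) + 1) ^ (2 * (N : ℝ) * e0) * m * r) *
        (2 ^ ((N : ℝ) * s) * r ^ e0 * al ^ s * (u⁻¹) ^ (((h : ℝ) + 1) * s)) := by
    unfold H43.PS.XX
    rw [hA, hB, hsig, ← hC]
    ring
  have hkc : kc p q N h e0 W θ * m * r * (al + θ) =
      (2 * 2 ^ N * ((p : ℝ) + 1) ^ (2 * (N : ℝ) * e0) * m * r) *
        (2 ^ N * W ^ e0 * ((al + θ) * (1 / θ) ^ e0) *
          ((1 / e0) ^ (h + 1) * ((p : ℝ) / q) ^ (((h : ℝ) + 1) * s))) := by
    unfold kc
    rw [hF, ← hs]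
    have : (2 : ℝ) ^ (2 * N + 1) = 2 * 2 ^ N * 2 ^ N := by
      rw [pow_succ, two_mul N, pow_add]; ring
    rw [this]
    ring
  rw [hXX, hkc]
  refine mul_le_mul_of_nonneg_left ?_ (by positivity)
  have h2N : (0 : ℝ) ≤ 2 ^ ((N : ℝ) * s) := by positivity
  have huu : 0 ≤ (u⁻¹) ^ (((h : ℝ) + 1) * s) := by positivity
  refine mul_le_mul (mul_le_mul (mul_le_mul hD hE (by positivity) (by positivity)) hala
    (by positivity) (by positivity)) hlast huu (by positivity)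

end Pool.Agent.H56.SV
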